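import Mathlib

/-!
# Bi-infinite geodesics in graphs with a coarse height function
-/

set_option autoImplicit false

namespace Pool.Agent.K3h64.SSI

open SimpleGraph

variable {Y : Type} {H : SimpleGraph Y}

/-- a chain of adjacent vertices -/
lemma dist_chain (hc : H.Connected) (γ : ℕ → Y) (L : ℕ)
    (hγ : ∀ i, i < L → H.Adj (γ i) (γ (i + 1))) :
    ∀ i d : ℕ, i + d ≤ L → H.dist (γ i) (γ (i + d)) ≤ d := by
  intro i d
  induction d with
  | zero => intro _; simp
  | succ d ih =>
    intro h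
    have h1 := ih (by omega)
    have h2 := hγ (i + d) (by omega)
    have h3 : H.dist (γ (i + d)) (γ (i + d + 1)) = 1 := dist_eq_one_iff_adj.2 h2
    have h4 : H.dist (γ i) (γ (i + d + 1)) ≤ H.dist (γ i) (γ (i + d)) +
      H.dist (γ (i + d)) (γ (i + d + 1)) := hc.dist_triangle
    rw [← add_assoc]
    omega

/-- a geodesic between two vertices -/
lemma exists_geodesic (hc : H.Connected) (a b : Y) : ∃ γ : ℕ → Y, γ 0 = a ∧ γ (H.dist a b) = b ∧
    (∀ i, i < H.dist a b → H.Adj (γ i) (γ (i + 1))) ∧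
    ∀ i d : ℕ, i + d ≤ H.dist a b → H.dist (γ i) (γ (i + d)) = d := by
  obtain ⟨w, hw⟩ := hc.exists_walk_length_eq_dist a b
  refine ⟨w.getVert, w.getVert_zero, ?_, ?_, ?_⟩
  · rw [← hw]; exact w.getVert_length
  · intro i hi
    exact w.adj_getVert_succ (by omega)
  · have hadj : ∀ i, i < H.dist a b → H.Adj (w.getVert i) (w.getVert (i + 1)) := by
      intro i hi
      exact w.adj_getVert_succ (by omega)
    have hle := dist_chain hc w.getVert _ hadj
    intro i d hid
    apply le_antisymm (hle i d hid)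
    have h1 := hle 0 i (by omega)
    have h2 := hle (i + d) (H.dist a b - (i + d)) (by omega)
    rw [Nat.add_sub_cancel' hid] at h2
    have h0 : w.getVert (H.dist a b) = b := by rw [← hw]; exact w.getVert_length
    rw [h0] at h2
    rw [Nat.zero_add, w.getVert_zero] at h1
    have h3 : H.dist a b ≤ H.dist a (w.getVert i) + H.dist (w.getVert i) b := hc.dist_triangle
    have h4 : H.dist (w.getVert i) b ≤ H.dist (w.getVert i) (w.getVert (i + d)) +
      H.dist (w.getVert (i + d)) b := hc.dist_triangle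
    omega

lemma height_chain (h : Y → ℤ) (A : ℕ) (hA : ∀ u v, H.Adj u v → |h u - h v| ≤ A) (γ : ℕ → Y) (L : ℕ)
    (hγ : ∀ i, i < L → H.Adj (γ i) (γ (i + 1))) :
    ∀ i d : ℕ, i + d ≤ L → |h (γ (i + d)) - h (γ i)| ≤ A * d := by
  intro i d
  induction d with
  | zero => intro _; simp
  | succ d ih =>
    intro hh
    have h1 := ih (by omega)
    have h2 := hA _ _ (hγ (i + d) (by omega))
    rw [← add_assoc]
    rw [abs_le] at *
    push_cast
    constructor <;> nlinarith [h1.1, h1.2, h2.1, h2.2]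

/-- long geodesics through a bounded region -/
lemma exists_long (hc : H.Connected) (h : Y → ℤ) (A : ℕ) (hA0 : 0 < A)
    (hA : ∀ u v, H.Adj u v → |h u - h v| ≤ A)
    (hub : ∀ B : ℤ, ∃ u, B ≤ h u) (hlb : ∀ B : ℤ, ∃ u, h u ≤ B) (M : ℕ) :
    ∃ q : ℤ → Y, (∀ j, |h (q j)| ≤ A + A * |j|) ∧
      ∀ i j : ℤ, |i| ≤ M → |j| ≤ M → (H.dist (q i) (q j) : ℤ) = |i - j| := by
  classical
  obtain ⟨a, ha⟩ := hlb (-(A * (M + 1)) - 1)
  obtain ⟨b, hb⟩ := hub (A * (M + 1) + A)
  obtain ⟨γ, h0, hL, hadj, hgeo⟩ := exists_geodesic hc a b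
  set L := H.dist a b with hLdef
  have hh := height_chain h A hA γ L hadj
  have hex : ∃ i, 0 ≤ h (γ i) := ⟨L, by rw [hL]; exact le_trans (by positivity) hb⟩
  set i0 := Nat.find hex with hi0
  have hi1 : 0 ≤ h (γ i0) := Nat.find_spec hex
  have hi0L : i0 ≤ L := Nat.find_min' hex (by rw [hL]; exact le_trans (by positivity) hb)
  have hi0pos : 0 < i0 := by
    rcases Nat.eq_zero_or_pos i0 with h1 | h1
    · exfalso
      rw [h1, h0] at hi1
      have : (0:ℤ) ≤ A * (M + 1) := by positivity
      linarith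
    · exact h1
  have hprev : h (γ (i0 - 1)) < 0 := by
    have := Nat.find_min hex (m := i0 - 1) (by omega)
    push Not at this
    exact this
  have hstep := hh (i0 - 1) 1 (by omega)
  rw [Nat.sub_add_cancel hi0pos] at hstep
  have hi2 : h (γ i0) ≤ A := by
    rw [abs_le] at hstep
    have := hstep.2
    push_cast at this
    linarith
  have hM1 : M ≤ i0 := by
    have h1 := hh 0 i0 (by omega)
    rw [Nat.zero_add, h0, abs_le] at h1
    have h2 : (A : ℤ) * (M + 1) ≤ A * i0 := by linarith [h1.2]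
    have h3 : (M : ℤ) + 1 ≤ i0 := le_of_mul_le_mul_left h2 (by exact_mod_cast hA0)
    omega
  have hM2 : M ≤ L - i0 := by
    have h1 := hh i0 (L - i0) (by omega)
    rw [Nat.add_sub_cancel' hi0L, hL, abs_le] at h1
    have h2 : (A : ℤ) * (M + 1) ≤ A * ((L - i0 : ℕ) : ℤ) := by linarith [h1.2]
    have h3 : (M : ℤ) + 1 ≤ ((L - i0 : ℕ) : ℤ) := le_of_mul_le_mul_left h2 (by exact_mod_cast hA0)
    omega
  refine ⟨fun j => if |j| ≤ M then γ ((i0 + j).toNat) else γ i0, ?_, ?_⟩
  · intro j
    show |h (if |j| ≤ M then γ ((i0 + j).toNat) else γ i0)| ≤ A + A * |j|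
    have hb0 : |h (γ i0)| ≤ A := abs_le.2 ⟨by linarith, hi2⟩
    split_ifs with hj
    · have hj' := abs_le.1 hj
      rcases le_total 0 j with hj0 | hj0
      · obtain ⟨d, rfl⟩ := Int.eq_ofNat_of_zero_le hj0
        have h1 := hh i0 d (by omega)
        have e : ((i0 : ℤ) + (d : ℤ)).toNat = i0 + d := by omega
        rw [e]
        have h2 : |h (γ (i0 + d))| ≤ |h (γ (i0 + d)) - h (γ i0)| + |h (γ i0)| := by
          have := abs_add_le (h (γ (i0 + d)) - h (γ i0)) (h (γ i0))
          simpa using this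
        have h3 : |(d : ℤ)| = d := by simp
        rw [h3]
        linarith
      · obtain ⟨d, hd⟩ := Int.eq_ofNat_of_zero_le (show 0 ≤ -j by omega)
        have hjd : j = -(d : ℤ) := by omega
        subst hjd
        have h1 := hh (i0 - d) d (by omega)
        have e : ((i0 : ℤ) + (-(d : ℤ))).toNat = i0 - d := by omega
        rw [e]
        rw [Nat.sub_add_cancel (by omega : d ≤ i0)] at h1
        have h2 : |h (γ (i0 - d))| ≤ |h (γ i0) - h (γ (i0 - d))| + |h (γ i0)| := by
          have := abs_add_le (-(h (γ i0) - h (γ (i0 - d)))) (h (γ i0))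
          rw [abs_neg] at this
          refine le_trans (le_of_eq ?_) this
          congr 1
          ring
        have h3 : |(-(d : ℤ))| = d := by simp
        rw [h3]
        linarith
    · have : (0:ℤ) ≤ A * |j| := by positivity
      linarith
  · intro i j hi hj
    have key : ∀ i j : ℤ, |i| ≤ M → |j| ≤ M → i ≤ j →
        (H.dist (γ ((i0 + i).toNat)) (γ ((i0 + j).toNat)) : ℤ) = j - i := by
      intro i j hi hj hij
      have hi' := abs_le.1 hi
      have hj' := abs_le.1 hj
      have h1 := hgeo ((i0 + i).toNat) ((j - i).toNat) (by omega)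
      have e : ((i0 : ℤ) + i).toNat + (j - i).toNat = ((i0 : ℤ) + j).toNat := by omega
      rw [e] at h1
      rw [h1]
      omega
    show (H.dist (if |i| ≤ M then γ ((i0 + i).toNat) else γ i0)
      (if |j| ≤ M then γ ((i0 + j).toNat) else γ i0) : ℤ) = |i - j|
    rw [if_pos hi, if_pos hj]
    rcases le_total i j with hij | hij
    · rw [key i j hi hj hij, abs_sub_comm, abs_of_nonneg (by omega)]
    · rw [dist_comm, key j i hj hi hij, abs_of_nonneg (by omega)]

/-- a bi-infinite geodesic -/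
lemma exists_line (hc : H.Connected) (h : Y → ℤ) (A : ℕ) (hA0 : 0 < A)
    (hA : ∀ u v, H.Adj u v → |h u - h v| ≤ A)
    (hfin : ∀ B : ℤ, {u | |h u| ≤ B}.Finite)
    (hub : ∀ B : ℤ, ∃ u, B ≤ h u) (hlb : ∀ B : ℤ, ∃ u, h u ≤ B) :
    ∃ p : ℤ → Y, ∀ i j : ℤ, (H.dist (p i) (p j) : ℤ) = |i - j| := by
  classical
  letI : TopologicalSpace Y := ⊥
  haveI : DiscreteTopology Y := ⟨rfl⟩
  let F : ℤ → Set Y := fun j => {u | |h u| ≤ A + A * |j|}
  have hP : IsCompact (Set.pi Set.univ F) := isCompact_univ_pi fun j => (hfin _).isCompact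
  let K : ℕ → Set (ℤ → Y) := fun M => Set.pi Set.univ F ∩
    {p | ∀ i j : ℤ, |i| ≤ M → |j| ≤ M → (H.dist (p i) (p j) : ℤ) = |i - j|}
  have hcl : ∀ M, IsClosed {p : ℤ → Y | ∀ i j : ℤ, |i| ≤ M → |j| ≤ M →
      (H.dist (p i) (p j) : ℤ) = |i - j|} := by
    intro M
    simp only [Set.setOf_forall]
    refine isClosed_iInter fun i => isClosed_iInter fun j => isClosed_iInter fun _ =>
      isClosed_iInter fun _ => ?_
    have hcont : Continuous (fun p : ℤ → Y => (p i, p j)) :=
      (continuous_apply i).prodMk (continuous_apply j)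
    have : {p : ℤ → Y | (H.dist (p i) (p j) : ℤ) = |i - j|} =
      (fun p : ℤ → Y => (p i, p j)) ⁻¹' {x : Y × Y | (H.dist x.1 x.2 : ℤ) = |i - j|} := rfl
    rw [this]
    exact (isClosed_discrete _).preimage hcont
  have hKc : ∀ M, IsClosed (K M) := fun M => hP.isClosed.inter (hcl M)
  have hne : (⋂ M, K M).Nonempty := by
    apply IsCompact.nonempty_iInter_of_sequence_nonempty_isCompact_isClosed
    · rintro M p ⟨h1, h2⟩
      refine ⟨h1, fun i j hi hj => h2 i j ?_ ?_⟩
      · push_cast; linarith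
      · push_cast; linarith
    · intro M
      obtain ⟨q, h1, h2⟩ := exists_long hc h A hA0 hA hub hlb M
      exact ⟨q, fun j _ => h1 j, h2⟩
    · exact hP.inter_right (hcl 0)
    · exact hKc
  obtain ⟨p, hp⟩ := hne
  refine ⟨p, fun i j => ?_⟩
  have := (Set.mem_iInter.1 hp (max i.natAbs j.natAbs)).2 i j
  apply this
  · rw [Int.abs_eq_natAbs]; exact_mod_cast le_max_left _ _
  · rw [Int.abs_eq_natAbs]; exact_mod_cast le_max_right _ _

/-- a sequence of integers with bounded steps which is coarsely injective is unbounded above -/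
lemma unbounded_above (φ : ℤ → ℤ) (A : ℕ) (h1 : ∀ i, |φ (i + 1) - φ i| ≤ A)
    (h2 : ∀ i j, |i - j| - 1 ≤ |φ i - φ j|) (B : ℤ) : ∃ i, B ≤ φ i := by
  classical
  by_contra hcon
  push Not at hcon
  -- `φ` is bounded above by `B`, hence tends to `-∞` in both directions
  set T : ℤ := min (φ 0) 0 - A * (A + 2) - 1 with hT
  have hstep : ∀ i, |φ (i - 1) - φ i| ≤ A := by
    intro i
    have := h1 (i - 1)
    rw [sub_add_cancel, abs_sub_comm] at this
    exact this
  -- right side
  have key : ∀ ψ : ℕ → ℤ, ψ 0 = φ 0 → (∀ n, |ψ (n + 1) - ψ n| ≤ A) → (∀ n, ψ n < B) →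
      (∀ n : ℕ, (n : ℤ) - 1 ≤ |ψ n - ψ 0|) → ∃ n : ℕ, T - A ≤ ψ n ∧ ψ n ≤ T ∧ (A : ℤ) + 1 < n := by
    intro ψ h0 hs hB hl
    have hex : ∃ n, ψ n ≤ T := by
      refine ⟨(|B - ψ 0| + |T - ψ 0| + 2).toNat, ?_⟩
      set m := (|B - ψ 0| + |T - ψ 0| + 2).toNat
      have hm : (m : ℤ) = |B - ψ 0| + |T - ψ 0| + 2 := by
        apply Int.toNat_of_nonneg; positivity
      have h3 := hl m
      have h4 := hB m
      rcases abs_cases (ψ m - ψ 0) with ⟨h5, _⟩ | ⟨h5, _⟩
      · exfalso
        have h6 := le_abs_self (B - ψ 0)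
        have h7 := abs_nonneg (T - ψ 0)
        linarith
      · have h6 := neg_abs_le (T - ψ 0)
        have h7 := abs_nonneg (B - ψ 0)
        linarith
    set n0 := Nat.find hex
    have hn0 : ψ n0 ≤ T := Nat.find_spec hex
    have hTφ : T < ψ 0 := by
      rw [h0, hT]
      have : min (φ 0) 0 ≤ φ 0 := min_le_left _ _
      have : (0:ℤ) ≤ A * (A + 2) := by positivity
      linarith
    have hpos : 0 < n0 := by
      rcases Nat.eq_zero_or_pos n0 with h | h
      · exfalso
        rw [h] at hn0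
        linarith
      · exact h
    have hprev : T < ψ (n0 - 1) := by
      have := Nat.find_min hex (m := n0 - 1) (by omega)
      push Not at this
      exact this
    have hs' := hs (n0 - 1)
    rw [Nat.sub_add_cancel hpos, abs_le] at hs'
    have hdown : ∀ n : ℕ, ψ 0 - A * n ≤ ψ n := by
      intro n
      induction n with
      | zero => simp
      | succ n ih =>
        have := (abs_le.1 (hs n)).1
        push_cast
        nlinarith
    refine ⟨n0, by linarith [hs'.1], hn0, ?_⟩
    have h8 := hdown n0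
    have h9 : (A : ℤ) * (A + 2) < A * n0 := by
      have : min (φ 0) 0 ≤ φ 0 := min_le_left _ _
      rw [h0] at h8
      linarith
    have h10 : (A : ℤ) + 2 < n0 := lt_of_mul_lt_mul_left h9 (by positivity)
    linarith
  obtain ⟨n, hn1, hn2, hn3⟩ := key (fun n => φ n) rfl (fun n => by exact_mod_cast h1 n)
    (fun n => hcon _) (fun n => by simpa using h2 n 0)
  obtain ⟨m, hm1, hm2, hm3⟩ := key (fun n => φ (-(n : ℤ))) (by simp)
    (fun n => by
      have := hstep (-(n : ℤ))
      have e : -((n + 1 : ℕ) : ℤ) = -(n : ℤ) - 1 := by push_cast; ring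
      show |φ (-((n + 1 : ℕ) : ℤ)) - φ (-(n : ℤ))| ≤ A
      rw [e]; exact this)
    (fun n => hcon _) (fun n => by simpa using h2 (-(n : ℤ)) 0)
  have h3 := h2 n (-(m : ℤ))
  have h4 : |φ n - φ (-(m : ℤ))| ≤ A := by
    rw [abs_le]
    constructor <;> linarith
  have h5 : |(n : ℤ) - -(m : ℤ)| = n + m := by
    rw [sub_neg_eq_add, abs_of_nonneg (by positivity)]
  rw [h5] at h3
  linarith

lemma dense_of_unbounded (φ : ℤ → ℤ) (k : ℕ) (h1 : ∀ i, |φ (i + 1) - φ i| ≤ 2 * k + 1)
    (hub : ∀ B : ℤ, ∃ i, B ≤ φ i) (hlb : ∀ B : ℤ, ∃ i, φ i ≤ B) (y : ℤ) :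
    ∃ i, |φ i - y| ≤ k := by
  by_contra hcon
  push Not at hcon
  obtain ⟨i1, hi1⟩ := hub (y + 1)
  obtain ⟨i2, hi2⟩ := hlb (y - 1)
  have hup : ∀ i, y < φ i → y < φ (i + 1) := by
    intro i hi
    have h3 := hcon i
    rw [abs_of_pos (by linarith)] at h3
    have h4 := hcon (i + 1)
    have h5 := (abs_le.1 (h1 i)).1
    rcases abs_cases (φ (i + 1) - y) with ⟨h6, _⟩ | ⟨h6, _⟩
    · rw [h6] at h4
      have : (0:ℤ) ≤ k := by positivity
      linarith
    · rw [h6] at h4
      linarith
  have hdn : ∀ i, y < φ (i + 1) → y < φ i := by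
    intro i hi
    have h3 := hcon (i + 1)
    rw [abs_of_pos (by linarith)] at h3
    have h4 := hcon i
    have h5 := (abs_le.1 (h1 i)).2
    rcases abs_cases (φ i - y) with ⟨h6, _⟩ | ⟨h6, _⟩
    · rw [h6] at h4
      have : (0:ℤ) ≤ k := by positivity
      linarith
    · rw [h6] at h4
      linarith
  have hall : ∀ i, y < φ i := by
    intro i
    have : ∀ d : ℕ, y < φ (i1 + d) ∧ y < φ (i1 - d) := by
      intro d
      induction d with
      | zero => constructor <;> simp <;> linarith
      | succ d ih =>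
        constructor
        · have := hup _ ih.1
          push_cast
          rw [← add_assoc]; exact this
        · apply hdn
          push_cast
          have e : i1 - ((d : ℤ) + 1) + 1 = i1 - d := by ring
          rw [e]; exact ih.2
    rcases le_total i1 i with h | h
    · have := (this (i - i1).toNat).1
      rw [Int.toNat_of_nonneg (by linarith)] at this
      simpa using this
    · have := (this (i1 - i).toNat).2
      rw [Int.toNat_of_nonneg (by linarith)] at this
      simpa using this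
  have := hall i2
  linarith

end Pool.Agent.K3h64.SSI
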