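import Pool.Agent.K3h64.SSI.Line

/-!
# Nets, net graphs and rough isometries
-/

set_option autoImplicit false

namespace Pool.Agent.K3h64.SSI

open SimpleGraph Filter Topology

/-- `N` is a `k`-net of `G`: a set of vertices at pairwise distance at least `k`, maximal under
inclusion among such sets. -/
def IsNet {V : Type} (G : SimpleGraph V) (k : ℕ) (N : Set V) : Prop :=
  Maximal (fun S : Set V => ∀ u ∈ S, ∀ v ∈ S, u ≠ v → k ≤ G.dist u v) N

/-- The `k`-net graph on `N`: `u` and `v` are adjacent if `0 < d(u, v) ≤ 2 k`. -/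
def netGraph {V : Type} (G : SimpleGraph V) (k : ℕ) (N : Set V) : SimpleGraph N where
  Adj u v := 0 < G.dist (u : V) v ∧ G.dist (u : V) v ≤ 2 * k
  symm := ⟨fun u v h => by rw [G.dist_comm (u := (v : V))]; exact h⟩
  loopless := ⟨fun u h => by simp at h⟩

/-- `f` is a `C`-rough isometry from the vertices of `G` to the vertices of `H`, both with the graph
distance. -/
def IsRoughIsometry {V W : Type} (G : SimpleGraph V) (H : SimpleGraph W) (C : ℝ) (f : V → W) :
    Prop :=
  (∀ x y, C⁻¹ * H.dist (f x) (f y) - C ≤ G.dist x y ∧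
    (G.dist x y : ℝ) ≤ C * H.dist (f x) (f y) + C) ∧
  ∀ y, ∃ x, (H.dist (f x) y : ℝ) < C

/-- the infimum of all `C > 0` for which there is a `C`-rough isometry -/
noncomputable def roughConst {V W : Type} (G : SimpleGraph V) (H : SimpleGraph W) : ℝ :=
  sInf {C : ℝ | 0 < C ∧ ∃ f : V → W, IsRoughIsometry G H C f}

/-- `G` is sub scale invariant: for every choice of `k`-nets `N k` the numbers `C_k` tend to `1`. -/
def SubScaleInvariant {V : Type} (G : SimpleGraph V) : Prop :=
  ∀ N : ℕ → Set V, (∀ k, 1 ≤ k → IsNet G k (N k)) →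
    Tendsto (fun k => roughConst G (netGraph G k (N k))) atTop (𝓝 1)

variable {V : Type} {G : SimpleGraph V}

lemma IsNet.sep {k : ℕ} {N : Set V} (hN : IsNet G k N) {u v : V} (hu : u ∈ N) (hv : v ∈ N)
    (h : u ≠ v) : k ≤ G.dist u v := hN.1 u hu v hv h

lemma IsNet.cover {k : ℕ} (hk : 1 ≤ k) {N : Set V} (hN : IsNet G k N) (x : V) :
    ∃ u ∈ N, G.dist x u < k := by
  by_contra hcon
  push Not at hcon
  have hx : x ∉ N := by
    intro hx
    have := hcon x hx
    rw [SimpleGraph.dist_self] at this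
    omega
  have h1 : (fun S : Set V => ∀ u ∈ S, ∀ v ∈ S, u ≠ v → k ≤ G.dist u v) (insert x N) := by
    rintro u (rfl | hu) v (rfl | hv) huv
    · exact absurd rfl huv
    · exact hcon v hv
    · rw [G.dist_comm]; exact hcon u hu
    · exact hN.1 u hu v hv huv
  have h2 : insert x N ≤ N := hN.2 h1 (Set.subset_insert x N)
  exact hx (h2 (Set.mem_insert x N))

/-- nets exist -/
lemma exists_net (G : SimpleGraph V) (k : ℕ) : ∃ N, IsNet G k N := by
  obtain ⟨N, -, hN⟩ := zorn_subset_nonempty
    {S : Set V | ∀ u ∈ S, ∀ v ∈ S, u ≠ v → k ≤ G.dist u v} (by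
      intro c hc hchain hne
      refine ⟨⋃₀ c, ?_, fun s hs => Set.subset_sUnion_of_mem hs⟩
      rintro u ⟨s, hs, hu⟩ v ⟨t, ht, hv⟩ huv
      rcases hchain.total hs ht with h | h
      · exact hc ht u (h hu) v hv huv
      · exact hc hs u hu v (h hv) huv) ∅ (by simp)
  exact ⟨N, hN⟩

/-- the net graph of a connected graph is connected, and its distance is at most the distance of the
graph -/
lemma netGraph_conn (hG : G.Connected) {k : ℕ} (hk : 1 ≤ k) {N : Set V} (hN : IsNet G k N) :
    (netGraph G k N).Connected ∧ ∀ u v : N, (netGraph G k N).dist u v ≤ G.dist (u : V) v := by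
  classical
  have hch : ∀ x : V, ∃ u : N, G.dist x u < k ∧ (∀ hx : x ∈ N, u = ⟨x, hx⟩) := by
    intro x
    by_cases hx : x ∈ N
    · exact ⟨⟨x, hx⟩, by simp; omega, fun _ => rfl⟩
    · obtain ⟨u, hu, h⟩ := hN.cover hk x
      exact ⟨⟨u, hu⟩, h, fun h' => absurd h' hx⟩
  choose c hc1 hc2 using hch
  have hadj : ∀ x y, G.Adj x y → c x = c y ∨ (netGraph G k N).Adj (c x) (c y) := by
    intro x y hxy
    by_cases he : c x = c y
    · exact Or.inl he
    · right
      refine ⟨hG.pos_dist_of_ne fun h => he (Subtype.ext h), ?_⟩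
      have h1 := hc1 x
      have h2 := hc1 y
      have h3 : G.dist (c x : V) (c y) ≤ G.dist (c x : V) x + G.dist x (c y) := hG.dist_triangle
      have h4 : G.dist x (c y) ≤ G.dist x y + G.dist y (c y) := hG.dist_triangle
      have h5 : G.dist x y = 1 := dist_eq_one_iff_adj.2 hxy
      rw [G.dist_comm] at h1
      omega
  have hwalk : ∀ (x y : V) (w : G.Walk x y), ∃ w' : (netGraph G k N).Walk (c x) (c y),
      w'.length ≤ w.length := by
    intro x y w
    induction w with
    | nil => exact ⟨Walk.nil, by simp⟩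
    | @cons a b d hab w ih =>
      obtain ⟨w', hw'⟩ := ih
      rcases hadj a b hab with h | h
      · refine ⟨w'.copy h.symm rfl, ?_⟩
        simp
        omega
      · exact ⟨Walk.cons h w', by simpa using hw'⟩
  have hmem : ∀ u : N, c u = u := fun u => hc2 u u.2
  have hwalk' : ∀ u v : N, ∃ w' : (netGraph G k N).Walk u v, w'.length ≤ G.dist (u : V) v := by
    intro u v
    obtain ⟨w, hw⟩ := hG.exists_walk_length_eq_dist (u : V) v
    obtain ⟨w', hw'⟩ := hwalk _ _ w
    exact ⟨w'.copy (hmem u) (hmem v), by simpa [hw] using hw'⟩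
  have hne : Nonempty N := by
    obtain ⟨x⟩ := hG.nonempty
    exact ⟨c x⟩
  refine ⟨⟨fun u v => ?_⟩, fun u v => ?_⟩
  · obtain ⟨w', -⟩ := hwalk' u v
    exact ⟨w'⟩
  · obtain ⟨w', hw'⟩ := hwalk' u v
    exact (dist_le w').trans hw'

/-- A graph with a map to `ℤ` which preserves distances up to an error at most `1` has
`C_k = 1` for all `k ≥ 2` and all `k`-nets. -/
theorem roughConst_eq_one (hG : G.Connected) (h : V → ℤ) (hs : Function.Surjective h)
    (he : ∀ x y, abs ((G.dist x y : ℤ) - |h x - h y|) ≤ 1) {k : ℕ} (hk : 2 ≤ k) {N : Set V}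
    (hN : IsNet G k N) : roughConst G (netGraph G k N) = 1 := by
  classical
  obtain ⟨hc, hd⟩ := netGraph_conn hG (by omega : 1 ≤ k) hN
  set H := netGraph G k N with hH
  have hA : ∀ u v : N, H.Adj u v → |h u - h v| ≤ ((2 * k + 1 : ℕ) : ℤ) := by
    rintro u v ⟨-, h2⟩
    have h3 := (abs_le.1 (he u v)).1
    push_cast
    have : (G.dist (u : V) v : ℤ) ≤ 2 * k := by exact_mod_cast h2
    linarith
  have hdle : ∀ u v : N, (H.dist u v : ℤ) ≤ |h u - h v| + 1 := by
    intro u v
    have h1 : (H.dist u v : ℤ) ≤ G.dist (u : V) v := by exact_mod_cast hd u v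
    have h2 := (abs_le.1 (he u v)).2
    linarith
  have hclose : ∀ u v : N, |h u - h v| ≤ k → H.dist u v ≤ 1 := by
    intro u v huv
    by_cases huv' : u = v
    · subst huv'; simp
    · apply le_of_eq
      apply dist_eq_one_iff_adj.2
      refine ⟨hG.pos_dist_of_ne fun h => huv' (Subtype.ext h), ?_⟩
      have h2 := (abs_le.1 (he u v)).2
      have : (G.dist (u : V) v : ℤ) ≤ k + 1 := by linarith
      omega
  have hinj : Function.Injective (fun u : N => h u) := by
    intro u v huv
    by_contra hne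
    have h1 := hN.sep u.2 v.2 (fun h => hne (Subtype.ext h))
    have h2 := (abs_le.1 (he u v)).2
    have h3 : h (u : V) - h v = 0 := by simpa [sub_eq_zero] using huv
    rw [h3] at h2
    simp at h2
    omega
  have hfin : ∀ B : ℤ, {u : N | |h u| ≤ B}.Finite := by
    intro B
    have : {u : N | |h u| ≤ B} = (fun u : N => h u) ⁻¹' (Set.Icc (-B) B) := by
      ext u
      simp [abs_le]
    rw [this]
    exact (Set.finite_Icc _ _).preimage hinj.injOn
  have hnear : ∀ z : ℤ, ∃ u : N, |h u - z| ≤ k := by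
    intro z
    obtain ⟨x, rfl⟩ := hs z
    obtain ⟨u, hu, hxu⟩ := hN.cover (by omega) x
    refine ⟨⟨u, hu⟩, ?_⟩
    have h2 := (abs_le.1 (he x u)).1
    rw [abs_sub_comm]
    have : (G.dist x u : ℤ) < k := by exact_mod_cast hxu
    show |h x - h u| ≤ k
    linarith
  obtain ⟨p, hp⟩ := exists_line hc (fun u : N => h u) (2 * k + 1) (by omega) hA hfin
    (fun B => by
      obtain ⟨u, hu⟩ := hnear (B + k)
      refine ⟨u, ?_⟩
      have := (abs_le.1 hu).1
      linarith)
    (fun B => by
      obtain ⟨u, hu⟩ := hnear (B - k)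
      refine ⟨u, ?_⟩
      have := (abs_le.1 hu).2
      linarith)
  -- the geodesic is coarsely dense
  have hstep : ∀ i, |h (p (i + 1)) - h (p i)| ≤ ((2 * k + 1 : ℕ) : ℤ) := by
    intro i
    apply hA
    apply dist_eq_one_iff_adj.1
    have := hp (i + 1) i
    have e : |i + 1 - i| = 1 := by rw [add_sub_cancel_left]; simp
    rw [e] at this
    exact_mod_cast this
  have hco : ∀ i j, |i - j| - 1 ≤ |h (p i) - h (p j)| := by
    intro i j
    have h1 := hp i j
    have h2 := hdle (p i) (p j)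
    linarith
  have hub : ∀ B : ℤ, ∃ i, B ≤ h (p i) :=
    fun B => unbounded_above (fun i => h (p i)) (2 * k + 1) hstep hco B
  have hlb : ∀ B : ℤ, ∃ i, h (p i) ≤ B := by
    intro B
    obtain ⟨i, hi⟩ := unbounded_above (fun i => -h (p i)) (2 * k + 1)
      (fun i => by
        have := hstep i
        rw [abs_sub_comm] at this
        have e : -h (p (i + 1)) - -h (p i) = h (p i) - h (p (i + 1)) := by ring
        rw [e]; exact this)
      (fun i j => by
        have := hco i j
        rw [abs_sub_comm (h (p i))] at this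
        have e : -h (p i) - -h (p j) = h (p j) - h (p i) := by ring
        rw [e]; exact this) (-B)
    exact ⟨i, by linarith⟩
  have hdense : ∀ y : N, ∃ i, H.dist (p i) y ≤ 1 := by
    intro y
    obtain ⟨i, hi⟩ := dense_of_unbounded (fun i => h (p i)) k
      (fun i => by have := hstep i; push_cast at this; exact this) hub hlb (h y)
    exact ⟨i, hclose _ _ hi⟩
  -- the rough isometry
  have hmem : ∀ C : ℝ, 1 < C → C ∈ {C : ℝ | 0 < C ∧ ∃ f : V → N, IsRoughIsometry G H C f} := by
    intro C hC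
    have hC0 : 0 < C := by linarith
    refine ⟨hC0, fun x => p (h x), fun x y => ?_, fun y => ?_⟩
    · have h1 : (H.dist (p (h x)) (p (h y)) : ℤ) = |h x - h y| := hp _ _
      have h2 := abs_le.1 (he x y)
      rw [← h1] at h2
      have h3 : (G.dist x y : ℝ) ≤ H.dist (p (h x)) (p (h y)) + 1 := by
        have : (G.dist x y : ℤ) ≤ H.dist (p (h x)) (p (h y)) + 1 := by linarith [h2.2]
        exact_mod_cast this
      have h4 : (H.dist (p (h x)) (p (h y)) : ℝ) ≤ G.dist x y + 1 := by
        have : (H.dist (p (h x)) (p (h y)) : ℤ) ≤ G.dist x y + 1 := by linarith [h2.1]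
        exact_mod_cast this
      have h5 : (0 : ℝ) ≤ H.dist (p (h x)) (p (h y)) := by positivity
      constructor
      · have h6 : C⁻¹ ≤ 1 := inv_le_one_of_one_le₀ hC.le
        nlinarith
      · nlinarith
    · obtain ⟨i, hi⟩ := hdense y
      obtain ⟨x, hx⟩ := hs i
      refine ⟨x, ?_⟩
      show (H.dist (p (h x)) y : ℝ) < C
      rw [hx]
      have : (H.dist (p i) y : ℝ) ≤ 1 := by exact_mod_cast hi
      linarith
  apply le_antisymm
  · apply le_of_forall_gt_imp_ge_of_dense
    intro C hC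
    exact csInf_le ⟨0, fun C hC => hC.1.le⟩ (hmem C hC)
  · apply le_csInf ⟨2, hmem 2 (by norm_num)⟩
    rintro C ⟨hC0, f, hf, -⟩
    by_contra hC1
    push Not at hC1
    -- distances are unbounded
    obtain ⟨n, hn⟩ := exists_nat_gt ((C⁻¹ + C) / (C⁻¹ * C⁻¹ - 1) + 1)
    obtain ⟨x, hx⟩ := hs n
    obtain ⟨y, hy⟩ := hs 0
    have h1 := (abs_le.1 (he x y)).1
    rw [hx, hy, sub_zero, abs_of_nonneg (by positivity)] at h1
    have h2 : (n : ℝ) - 1 ≤ G.dist x y := by
      have : (n : ℤ) - 1 ≤ G.dist x y := by linarith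
      exact_mod_cast this
    obtain ⟨h3, h4⟩ := hf x y
    have hCi : 1 < C⁻¹ := (one_lt_inv₀ hC0).2 hC1
    set D := (H.dist (f x) (f y) : ℝ)
    set d := (G.dist x y : ℝ)
    -- d ≤ C D + C, so D ≥ d / C - 1
    have h5 : C⁻¹ * d - 1 ≤ D := by
      have : C⁻¹ * d ≤ C⁻¹ * (C * D + C) := mul_le_mul_of_nonneg_left h4 (by positivity)
      have e : C⁻¹ * (C * D + C) = D + 1 := by field_simp
      linarith
    have h6 : C⁻¹ * (C⁻¹ * d - 1) - C ≤ d := by
      have : C⁻¹ * (C⁻¹ * d - 1) ≤ C⁻¹ * D := mul_le_mul_of_nonneg_left h5 (by positivity)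
      linarith
    have h7 : 0 < C⁻¹ * C⁻¹ - 1 := by nlinarith
    have h8 : (C⁻¹ * C⁻¹ - 1) * d ≤ C⁻¹ + C := by nlinarith
    have h9 : d ≤ (C⁻¹ + C) / (C⁻¹ * C⁻¹ - 1) := by
      rw [le_div_iff₀ h7]; linarith
    linarith

end Pool.Agent.K3h64.SSI
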